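import Pool.Agent.V8H53.Com.Dyn

/-!
# Convergence for all bounded functions
-/

set_option autoImplicit false
set_option linter.unusedSectionVars false

open MeasureTheory Filter Topology Set Finset
open scoped ENNReal ComplexConjugate

namespace Pool.Agent.V8H53.Com

open Pool.Agent.V8H53.Ind
open Pool.Agent.R205.PC (ex fx dd dd_meas dd_bound dd_approx Fresh prod_sub_le prod_tele avg_small)

/-- comparison of two products along sequences -/
lemma seq2 (m : ℕ) (a : ℕ → ℕ) (v : ℕ → ℕ → ℂ) (s : ℕ → ℕ → ℕ → ℂ) (C : ℝ)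
    (hC0 : 0 ≤ C) (hv : ∀ j k, ‖v j k‖ ≤ C) (hs : ∀ j i k, ‖s j i k‖ ≤ C)
    (h1 : ∀ r < m, ∀ i, Tendsto (fun N : ℕ => (N : ℂ)⁻¹ * ∑ n ∈ range N,
      (∏ j ∈ Finset.Ico (r + 1) m, v j (a j * (n + 1))) * (∏ j ∈ range r, s j 0 (a j * (n + 1))) *
        (s r i (a r * (n + 1)) - s r (i + 1) (a r * (n + 1)))) atTop (𝓝 0))
    (h2 : ∀ r < m, ∀ ε : ℝ, 0 < ε → ∃ L : ℕ, ∀ᶠ N : ℕ in atTop, (N : ℝ)⁻¹ * ∑ n ∈ range N,
      ‖((L + 1 : ℕ) : ℂ)⁻¹ * ∑ i ∈ range (L + 1), s r i (a r * (n + 1)) - v r (a r * (n + 1))‖ ≤ ε) :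
    Tendsto (fun N : ℕ => (N : ℂ)⁻¹ * ∑ n ∈ range N,
      (∏ j ∈ range m, s j 0 (a j * (n + 1)) - ∏ j ∈ range m, v j (a j * (n + 1)))) atTop (𝓝 0) := by
  have hterm : ∀ r ∈ range m, Tendsto (fun N : ℕ => (N : ℂ)⁻¹ * ∑ n ∈ range N,
      (∏ j ∈ range r, s j 0 (a j * (n + 1))) * (s r 0 (a r * (n + 1)) - v r (a r * (n + 1))) *
        ∏ j ∈ Finset.Ico (r + 1) m, v j (a j * (n + 1))) atTop (𝓝 0) := by
    intro r hr
    rw [Finset.mem_range] at hr
    set B : ℕ → ℂ := fun n => (∏ j ∈ Finset.Ico (r + 1) m, v j (a j * (n + 1))) *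
      (∏ j ∈ range r, s j 0 (a j * (n + 1))) with hB
    set D : ℝ := C ^ (Finset.Ico (r + 1) m).card * C ^ r with hD
    have hD0 : 0 ≤ D := by positivity
    have hBn : ∀ n, ‖B n‖ ≤ D := by
      intro n
      rw [hB]; simp only
      rw [norm_mul, norm_prod, norm_prod]
      refine mul_le_mul ?_ ?_ (Finset.prod_nonneg fun j _ => norm_nonneg _) (by positivity)
      · refine (Finset.prod_le_prod (fun j _ => norm_nonneg _) (fun j _ => hv j _)).trans ?_
        simp
      · refine (Finset.prod_le_prod (fun j _ => norm_nonneg _) (fun j _ => hs j _ _)).trans ?_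
        simp
    have hsh : ∀ i, Tendsto (fun N : ℕ => (N : ℂ)⁻¹ * ∑ n ∈ range N,
        B n * (s r 0 (a r * (n + 1)) - s r i (a r * (n + 1)))) atTop (𝓝 0) := by
      intro i
      induction i with
      | zero => simp
      | succ i ihi =>
        have := ihi.add (h1 r hr i)
        rw [add_zero] at this
        refine this.congr fun N => ?_
        rw [← mul_add, ← Finset.sum_add_distrib]
        congr 1
        refine Finset.sum_congr rfl fun n _ => ?_
        simp only [hB]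
        ring
    have hshL : ∀ L : ℕ, Tendsto (fun N : ℕ => (N : ℂ)⁻¹ * ∑ n ∈ range N,
        B n * (s r 0 (a r * (n + 1)) - ((L + 1 : ℕ) : ℂ)⁻¹ * ∑ i ∈ range (L + 1), s r i (a r * (n + 1))))
        atTop (𝓝 0) := by
      intro L
      have h3 : Tendsto (fun N : ℕ => ((L + 1 : ℕ) : ℂ)⁻¹ * ∑ i ∈ range (L + 1), ((N : ℂ)⁻¹ * ∑ n ∈ range N,
        B n * (s r 0 (a r * (n + 1)) - s r i (a r * (n + 1))))) atTop (𝓝 0) := by
        have := (tendsto_finsetSum (range (L + 1)) (fun i _ => hsh i)).const_mul (((L + 1 : ℕ) : ℂ)⁻¹)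
        simpa using this
      refine h3.congr fun N => ?_
      have hL0 : ((L + 1 : ℕ) : ℂ) ≠ 0 := by exact_mod_cast Nat.succ_ne_zero L
      rw [← Finset.mul_sum, Finset.sum_comm, mul_left_comm]
      congr 1
      rw [Finset.mul_sum]
      refine Finset.sum_congr rfl fun n _ => ?_
      rw [← Finset.mul_sum, Finset.sum_sub_distrib, Finset.sum_const, Finset.card_range, nsmul_eq_mul]
      field_simp
    have hmain : Tendsto (fun N : ℕ => (N : ℂ)⁻¹ * ∑ n ∈ range N,
        B n * (s r 0 (a r * (n + 1)) - v r (a r * (n + 1)))) atTop (𝓝 0) := by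
      rw [tendsto_zero_iff_norm_tendsto_zero, Metric.tendsto_atTop]
      intro ε hε
      obtain ⟨L, hL⟩ := h2 r hr (ε / (4 * (D + 1))) (by positivity)
      obtain ⟨N1, hN1⟩ := (Metric.tendsto_atTop.1 (tendsto_zero_iff_norm_tendsto_zero.1 (hshL L))) (ε / 4) (by positivity)
      obtain ⟨N2, hN2⟩ := eventually_atTop.1 hL
      refine ⟨max N1 N2, fun N hN => ?_⟩
      have g1 := hN1 N (le_trans (le_max_left _ _) hN)
      have g2 := hN2 N (le_trans (le_max_right _ _) hN)
      rw [Real.dist_eq, sub_zero, abs_norm] at g1 ⊢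
      have e3 : (N : ℂ)⁻¹ * ∑ n ∈ range N, B n * (s r 0 (a r * (n + 1)) - v r (a r * (n + 1))) =
          (N : ℂ)⁻¹ * ∑ n ∈ range N,
            B n * (s r 0 (a r * (n + 1)) - ((L + 1 : ℕ) : ℂ)⁻¹ * ∑ i ∈ range (L + 1), s r i (a r * (n + 1))) +
          (N : ℂ)⁻¹ * ∑ n ∈ range N,
            B n * (((L + 1 : ℕ) : ℂ)⁻¹ * ∑ i ∈ range (L + 1), s r i (a r * (n + 1)) - v r (a r * (n + 1))) := by
        rw [← mul_add, ← Finset.sum_add_distrib]
        congr 1
        refine Finset.sum_congr rfl fun n _ => ?_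
        ring
      rw [e3]
      have e4 : ‖(N : ℂ)⁻¹ * ∑ n ∈ range N,
            B n * (((L + 1 : ℕ) : ℂ)⁻¹ * ∑ i ∈ range (L + 1), s r i (a r * (n + 1)) - v r (a r * (n + 1)))‖ ≤
          D * ((N : ℝ)⁻¹ * ∑ n ∈ range N,
            ‖((L + 1 : ℕ) : ℂ)⁻¹ * ∑ i ∈ range (L + 1), s r i (a r * (n + 1)) - v r (a r * (n + 1))‖) := by
        rw [norm_mul, norm_inv, Complex.norm_natCast, mul_left_comm]
        apply mul_le_mul_of_nonneg_left _ (by positivity)
        rw [Finset.mul_sum]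
        refine norm_sum_le_of_le _ fun n _ => ?_
        rw [norm_mul]
        exact mul_le_mul_of_nonneg_right (hBn n) (norm_nonneg _)
      have e5 := mul_le_mul_of_nonneg_left g2 hD0
      have e6 : D * (ε / (4 * (D + 1))) ≤ ε / 4 := by
        rw [mul_div_assoc', div_le_div_iff₀ (by positivity) (by positivity)]
        nlinarith
      calc _ ≤ _ := norm_add_le _ _
        _ < ε := by linarith
    refine hmain.congr fun N => ?_
    congr 1
    refine Finset.sum_congr rfl fun n _ => ?_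
    simp only [hB]
    ring
  have hsum := tendsto_finsetSum (range m) hterm
  simp only [Finset.sum_const_zero] at hsum
  refine hsum.congr fun N => ?_
  rw [← Finset.mul_sum, Finset.sum_comm]
  congr 1
  refine Finset.sum_congr rfl fun n _ => ?_
  exact (prod_tele m (fun j => s j 0 (a j * (n + 1))) (fun j => v j (a j * (n + 1)))).symm

variable {X Y : Type*} [MeasurableSpace X] [MeasurableSpace Y]

/-- the ergodic theorem for bounded complex functions -/
lemma birkE {lam : Measure X} [IsProbabilityMeasure lam] {R : X → X} (hR : MeasurePreserving R lam lam)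
    (F : X → ℂ) (hF : Measurable F) (C : ℝ) (hC : ∀ x, ‖F x‖ ≤ C) :
    ∀ᵐ x ∂lam, Tendsto (fun n : ℕ => (n : ℂ)⁻¹ * ∑ k ∈ range n, F (R^[k] x)) atTop
      (𝓝 ((lam[F | MeasurableSpace.invariants R]) x)) := by
  have h1 := Pool.Agent.H165R3.BPE.birkhoff hR (fun y => (F y).re) (Complex.measurable_re.comp hF) C
    (fun y => (Complex.abs_re_le_norm _).trans (hC y))
  have h2 := Pool.Agent.H165R3.BPE.birkhoff hR (fun y => (F y).im) (Complex.measurable_im.comp hF) C
    (fun y => (Complex.abs_im_le_norm _).trans (hC y))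
  have hint : Integrable F lam := Integrable.of_bound hF.aestronglyMeasurable C (Eventually.of_forall hC)
  have e1 := Complex.reCLM.comp_condExp_comm (m := MeasurableSpace.invariants R) hint
  have e2 := Complex.imCLM.comp_condExp_comm (m := MeasurableSpace.invariants R) hint
  filter_upwards [h1, h2, e1, e2] with y g1 g2 q1 q2
  have q1' : ((lam[F | MeasurableSpace.invariants R]) y).re =
    (lam[(fun y => (F y).re) | MeasurableSpace.invariants R]) y := q1
  have q2' : ((lam[F | MeasurableSpace.invariants R]) y).im =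
    (lam[(fun y => (F y).im) | MeasurableSpace.invariants R]) y := q2
  rw [← q1'] at g1
  rw [← q2'] at g2
  have g1' := (Complex.continuous_ofReal.tendsto _).comp g1
  have g2' := ((Complex.continuous_ofReal.tendsto _).comp g2).mul_const Complex.I
  have g3 := g1'.add g2'
  rw [Complex.re_add_im] at g3
  refine g3.congr fun n => ?_
  simp only [Function.comp]
  push_cast
  rw [mul_assoc, ← mul_add, Finset.sum_mul, ← Finset.sum_add_distrib]
  congr 1
  refine Finset.sum_congr rfl fun k _ => ?_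
  exact Complex.re_add_im _

/-- the conditional expectation given the `R`-invariant sets, cut off at the height `C` -/
noncomputable def ce (lam : Measure X) (R : X → X) (C : ℝ) (f : X → ℂ) (x : X) : ℂ :=
  if ‖(lam[f | MeasurableSpace.invariants R]) x‖ ≤ C then (lam[f | MeasurableSpace.invariants R]) x else 0

lemma ce_meas (lam : Measure X) (R : X → X) (C : ℝ) (f : X → ℂ) : Measurable (ce lam R C f) := by
  have h : Measurable (lam[f | MeasurableSpace.invariants R]) :=
    (stronglyMeasurable_condExp.mono (MeasurableSpace.invariants_le R)).measurable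
  unfold ce
  exact Measurable.ite (measurableSet_le h.norm measurable_const) h measurable_const

lemma ce_bound (lam : Measure X) (R : X → X) (C : ℝ) (hC : 0 ≤ C) (f : X → ℂ) (x : X) :
    ‖ce lam R C f x‖ ≤ C := by
  unfold ce
  split_ifs with h
  · exact h
  · simpa using hC

lemma ce_inv (lam : Measure X) (R : X → X) (C : ℝ) (f : X → ℂ) (x : X) :
    ce lam R C f (R x) = ce lam R C f x := by
  have h1 : (lam[f | MeasurableSpace.invariants R]) ∘ R = lam[f | MeasurableSpace.invariants R] :=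
    MeasurableSpace.comp_eq_of_measurable_invariants stronglyMeasurable_condExp.measurable
  have h2 : (lam[f | MeasurableSpace.invariants R]) (R x) = (lam[f | MeasurableSpace.invariants R]) x :=
    congrFun h1 x
  unfold ce
  rw [h2]

lemma ce_ae (lam : Measure X) [IsProbabilityMeasure lam] (R : X → X) (C : ℝ) (f : X → ℂ)
    (hf : ∀ x, ‖f x‖ ≤ C) : ce lam R C f =ᵐ[lam] lam[f | MeasurableSpace.invariants R] := by
  have h := ae_bdd_norm_condExp_of_ae_bdd_norm (m := MeasurableSpace.invariants R) (μ := lam) (R := C)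
    (f := f) (Eventually.of_forall hf)
  filter_upwards [h] with x hx
  unfold ce
  rw [if_pos hx]

/-- the averages along `R` converge in the mean -/
lemma mean_tendsto {lam : Measure X} [IsProbabilityMeasure lam] {R : X → X} (hR : MeasurePreserving R lam lam)
    (F : X → ℂ) (hF : Measurable F) (C : ℝ) (hC0 : 0 ≤ C) (hC : ∀ x, ‖F x‖ ≤ C) :
    Tendsto (fun L : ℕ => ∫ x, ‖((L + 1 : ℕ) : ℂ)⁻¹ * ∑ i ∈ range (L + 1), F (R^[i] x) - ce lam R C F x‖ ∂lam)
      atTop (𝓝 0) := by
  have h0 : Tendsto (fun L : ℕ => ∫ x, ‖((L + 1 : ℕ) : ℂ)⁻¹ * ∑ i ∈ range (L + 1), F (R^[i] x) - ce lam R C F x‖ ∂lam)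
      atTop (𝓝 (∫ _x, (0:ℝ) ∂lam)) := by
    apply tendsto_integral_of_dominated_convergence (fun _ => C + C)
    · intro L
      exact ((((Finset.measurable_fun_sum _ fun i _ => hF.comp (hR.measurable.iterate i)).const_mul _)).sub
        (ce_meas lam R C F)).norm.aestronglyMeasurable
    · exact integrable_const _
    · intro L
      refine Eventually.of_forall fun x => ?_
      rw [Real.norm_eq_abs, abs_of_nonneg (norm_nonneg _)]
      refine (norm_sub_le _ _).trans (add_le_add ?_ (ce_bound lam R C hC0 F x))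
      rw [norm_mul, norm_inv, Complex.norm_natCast]
      have h1 : ‖∑ i ∈ range (L + 1), F (R^[i] x)‖ ≤ ((L + 1 : ℕ) : ℝ) * C := by
        refine (norm_sum_le_of_le _ fun i _ => hC _).trans ?_
        rw [Finset.sum_const, Finset.card_range, nsmul_eq_mul]
      have h2 : (0:ℝ) < ((L + 1 : ℕ) : ℝ) := by positivity
      rw [inv_mul_le_iff₀ h2]
      exact h1
    · filter_upwards [birkE hR F hF C hC, ce_ae lam R C F hC] with x hx hx2
      rw [hx2]
      have h1 := (hx.comp (tendsto_add_atTop_nat 1)).sub_const ((lam[F | MeasurableSpace.invariants R]) x)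
      rw [sub_self] at h1
      exact tendsto_zero_iff_norm_tendsto_zero.1 h1
  simpa using h0

/-- approximation by means that are small in the integral sense -/
lemma ex_small {lam : Measure X} [IsProbabilityMeasure lam] {T : X → X} (hT : MeasurePreserving T lam lam)
    (b : ℕ) (G : ℕ → X → ℝ) (hG : ∀ L, Measurable (G L)) (B : ℝ) (h0 : ∀ L x, 0 ≤ G L x)
    (hB : ∀ L x, G L x ≤ B) (hlim : Tendsto (fun L => ∫ x, G L x ∂lam) atTop (𝓝 0)) :
    ∀ᵐ x ∂lam, ∀ ε : ℝ, 0 < ε → ∃ L : ℕ, ∀ᶠ N : ℕ in atTop,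
      (N : ℝ)⁻¹ * ∑ n ∈ range N, G L (T^[b * (n + 1)] x) ≤ ε := by
  have key : ∀ k : ℕ, ∀ᵐ x ∂lam, ∃ L : ℕ, ∀ᶠ N : ℕ in atTop,
      (N : ℝ)⁻¹ * ∑ n ∈ range N, G L (T^[b * (n + 1)] x) ≤ 1 / ((k : ℝ) + 1) := by
    intro k
    rw [ae_iff, ← nonpos_iff_eq_zero]
    have hδ : (0:ℝ) < 1 / ((k : ℝ) + 1) := by positivity
    have h1 : Tendsto (fun L => ENNReal.ofReal ((∫ x, G L x ∂lam) / (1 / ((k : ℝ) + 1)))) atTop (𝓝 0) := by
      have h2 := (hlim.div_const (1 / ((k : ℝ) + 1)))
      rw [zero_div] at h2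
      have h3 := ENNReal.tendsto_ofReal h2
      rw [ENNReal.ofReal_zero] at h3
      exact h3
    refine ge_of_tendsto' h1 fun L => ?_
    refine le_trans (measure_mono ?_) (avg_small lam hT b (G L) (hG L) B (h0 L) (hB L) _ hδ)
    intro x hx hcon
    exact hx ⟨L, hcon⟩
  filter_upwards [ae_all_iff.2 key] with x hx ε hε
  obtain ⟨k, hk⟩ := exists_nat_one_div_lt hε
  obtain ⟨L, hL⟩ := hx k
  refine ⟨L, ?_⟩
  filter_upwards [hL] with N hN
  exact hN.trans hk.le

/-- convergence for a fixed family of functions -/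
lemma conv_fam {lam : Measure X} [IsProbabilityMeasure lam] {T R : X → X} {π : X → Y} {S : Y → Y}
    (h : Setup T R π S) (hT : MeasurePreserving T lam lam) (hR : MeasurePreserving R lam lam)
    (hπ : Measurable π) {ξ : Y → ℕ} (hξ : Measurable ξ) {θ : Om} (m : ℕ) (a : ℕ → ℕ)
    (f : ℕ → X → ℂ) (hf : ∀ j, Measurable (f j)) (C : ℝ) (hC0 : 0 ≤ C) (hfC : ∀ j x, ‖f j x‖ ≤ C)
    (hθ : ∀ r < m, ∀ i : ℕ, ∀ᵐ x ∂lam, Tendsto (fun l : ℕ => (1 / ((l ^ 8 : ℕ) : ℂ)) *
      ∑ n ∈ range (l ^ 8), Phi (cy S ξ (π x)) a (ha T R f x) (wa T a (fun j => ce lam R C (f j)) r m x) r i n θ)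
      atTop (𝓝 0)) :
    ∀ᵐ x ∂lam, Tendsto (fun N : ℕ => (N : ℂ)⁻¹ * ∑ n ∈ range N,
      (∏ j ∈ range m, f j ((pm T R π ξ θ)^[a j * (n + 1)] x) -
        ∏ j ∈ range m, ce lam R C (f j) (T^[a j * (n + 1)] x))) atTop (𝓝 0) := by
  have hP := mp_pm (ξ := ξ) (θ := θ) h hT hR hπ hξ
  have h1 : ∀ᵐ x ∂lam, ∀ r i : ℕ, r < m → Tendsto (fun l : ℕ => (1 / ((l ^ 8 : ℕ) : ℂ)) *
      ∑ n ∈ range (l ^ 8), Phi (cy S ξ (π x)) a (ha T R f x) (wa T a (fun j => ce lam R C (f j)) r m x) r i n θ)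
      atTop (𝓝 0) := by
    rw [ae_all_iff]; intro r
    rw [ae_all_iff]; intro i
    by_cases hr : r < m
    · filter_upwards [hθ r hr i] with x hx _
      exact hx
    · filter_upwards with x hx
      exact absurd hx hr
  have h2 : ∀ᵐ x ∂lam, ∀ r : ℕ, ∀ ε : ℝ, 0 < ε → ∃ L : ℕ, ∀ᶠ N : ℕ in atTop,
      (N : ℝ)⁻¹ * ∑ n ∈ range N, ‖((L + 1 : ℕ) : ℂ)⁻¹ * ∑ i ∈ range (L + 1),
        f r (R^[i] ((pm T R π ξ θ)^[a r * (n + 1)] x)) - ce lam R C (f r) ((pm T R π ξ θ)^[a r * (n + 1)] x)‖ ≤ ε := by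
    rw [ae_all_iff]; intro r
    refine ex_small hP (a r) (fun L x => ‖((L + 1 : ℕ) : ℂ)⁻¹ * ∑ i ∈ range (L + 1), f r (R^[i] x) -
      ce lam R C (f r) x‖) ?_ (C + C) (fun L x => norm_nonneg _) ?_ (mean_tendsto hR (f r) (hf r) C hC0 (hfC r))
    · intro L
      exact ((((Finset.measurable_fun_sum _ fun i _ => (hf r).comp (hR.measurable.iterate i)).const_mul _)).sub
        (ce_meas lam R C (f r))).norm
    · intro L x
      refine (norm_sub_le _ _).trans (add_le_add ?_ (ce_bound lam R C hC0 (f r) x))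
      rw [norm_mul, norm_inv, Complex.norm_natCast]
      have h1 : ‖∑ i ∈ range (L + 1), f r (R^[i] x)‖ ≤ ((L + 1 : ℕ) : ℝ) * C := by
        refine (norm_sum_le_of_le _ fun i _ => hfC r _).trans ?_
        rw [Finset.sum_const, Finset.card_range, nsmul_eq_mul]
      have h2 : (0:ℝ) < ((L + 1 : ℕ) : ℝ) := by positivity
      rw [inv_mul_le_iff₀ h2]
      exact h1
  filter_upwards [h1, h2] with x g1 g2
  have hval : ∀ j t i, ha T R f x j t (cnt (cy S ξ (π x)) θ t + i) = f j (R^[i] ((pm T R π ξ θ)^[t] x)) := by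
    intro j t i
    unfold ha
    rw [pm_iter h, ← Function.iterate_add_apply, Nat.add_comm]
  have hce : ∀ j t, ce lam R C (f j) (T^[t] x) = ce lam R C (f j) ((pm T R π ξ θ)^[t] x) := fun j t =>
    (pm_inv h ξ θ _ (ce_inv lam R C (f j)) t x).symm
  refine seq2 m a (fun j k => ce lam R C (f j) (T^[k] x))
    (fun j i k => f j (R^[i] ((pm T R π ξ θ)^[k] x))) C hC0 (fun j k => ce_bound lam R C hC0 _ _)
    (fun j i k => hfC _ _) ?_ ?_
  · intro r hr i
    apply fill_pow _ (C ^ (Finset.Ico (r + 1) m).card * C ^ r * (C + C))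
    · intro n
      rw [norm_mul, norm_mul, norm_prod, norm_prod]
      refine mul_le_mul (mul_le_mul ?_ ?_ (Finset.prod_nonneg fun j _ => norm_nonneg _) (by positivity)) ?_
        (norm_nonneg _) (by positivity)
      · refine (Finset.prod_le_prod (fun j _ => norm_nonneg _) (fun j _ => ce_bound lam R C hC0 _ _)).trans ?_
        simp
      · refine (Finset.prod_le_prod (fun j _ => norm_nonneg _) (fun j _ => hfC j _)).trans ?_
        simp
      · exact (norm_sub_le _ _).trans (add_le_add (hfC _ _) (hfC _ _))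
    · refine (g1 r i hr).congr fun l => ?_
      congr 1
      refine Finset.sum_congr rfl fun n _ => ?_
      unfold Phi wa
      have e0 : ∀ j t, ha T R f x j t (cnt (cy S ξ (π x)) θ t) = f j (R^[0] ((pm T R π ξ θ)^[t] x)) :=
        fun j t => hval j t 0
      rw [Nat.add_assoc, hval, hval]
      congr 2
      exact Finset.prod_congr rfl fun j _ => e0 j _
  · intro r hr ε hε
    obtain ⟨L, hL⟩ := g2 r ε hε
    refine ⟨L, ?_⟩
    filter_upwards [hL] with N hN
    refine le_trans (le_of_eq ?_) hN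
    congr 1
    refine Finset.sum_congr rfl fun n _ => ?_
    rw [hce]

end Pool.Agent.V8H53.Com
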