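import Pool.Agent.V8H53.Com.Fin

/-!
# All bounded functions; the main statement
-/

set_option autoImplicit false
set_option linter.unusedSectionVars false

open MeasureTheory Filter Topology Set Finset
open scoped ENNReal ComplexConjugate

namespace Pool.Agent.V8H53.Com

open Pool.Agent.V8H53.Ind
open Pool.Agent.R205.PC (ex fx dd dd_meas dd_bound dd_approx Fresh prod_sub_le prod_tele avg_small)

variable {X Y : Type*} [MeasurableSpace X] [MeasurableSpace Y]

lemma ex_small_fam {ι : Type*} (s : Finset ι) {lam : Measure X} [IsProbabilityMeasure lam] (T : ι → X → X)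
    (hT : ∀ i, MeasurePreserving (T i) lam lam) (b : ι → ℕ) (G : ι → ℕ → X → ℝ)
    (hG : ∀ i L, Measurable (G i L)) (B : ℝ) (h0 : ∀ i L x, 0 ≤ G i L x)
    (hB : ∀ i L x, G i L x ≤ B) (hlim : ∀ i, Tendsto (fun L => ∫ x, G i L x ∂lam) atTop (𝓝 0)) :
    ∀ᵐ x ∂lam, ∀ ε : ℝ, 0 < ε → ∃ L : ℕ, ∀ᶠ N : ℕ in atTop, ∀ i ∈ s,
      (N : ℝ)⁻¹ * ∑ n ∈ range N, G i L ((T i)^[b i * (n + 1)] x) ≤ ε := by
  have key : ∀ k : ℕ, ∀ᵐ x ∂lam, ∃ L : ℕ, ∀ᶠ N : ℕ in atTop, ∀ i ∈ s,
      (N : ℝ)⁻¹ * ∑ n ∈ range N, G i L ((T i)^[b i * (n + 1)] x) ≤ 1 / ((k : ℝ) + 1) := by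
    intro k
    rw [ae_iff, ← nonpos_iff_eq_zero]
    have hδ : (0:ℝ) < 1 / ((k : ℝ) + 1) := by positivity
    have h1 : Tendsto (fun L => ∑ i ∈ s, ENNReal.ofReal ((∫ x, G i L x ∂lam) / (1 / ((k : ℝ) + 1)))) atTop
        (𝓝 0) := by
      have h4 : ∀ i ∈ s, Tendsto (fun L => ENNReal.ofReal ((∫ x, G i L x ∂lam) / (1 / ((k : ℝ) + 1)))) atTop (𝓝 0) := by
        intro i _
        have h2 := ((hlim i).div_const (1 / ((k : ℝ) + 1)))
        rw [zero_div] at h2
        have h3 := ENNReal.tendsto_ofReal h2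
        rw [ENNReal.ofReal_zero] at h3
        exact h3
      have := tendsto_finsetSum s h4
      simpa using this
    refine ge_of_tendsto' h1 fun L => ?_
    have hsub : {x | ¬ ∃ L : ℕ, ∀ᶠ N : ℕ in atTop, ∀ i ∈ s,
        (N : ℝ)⁻¹ * ∑ n ∈ range N, G i L ((T i)^[b i * (n + 1)] x) ≤ 1 / ((k : ℝ) + 1)} ⊆
        ⋃ i ∈ s, {x | ¬ ∀ᶠ N : ℕ in atTop,
          (N : ℝ)⁻¹ * ∑ n ∈ range N, G i L ((T i)^[b i * (n + 1)] x) ≤ 1 / ((k : ℝ) + 1)} := by
      intro x hx
      by_contra hcon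
      apply hx
      refine ⟨L, ?_⟩
      rw [Filter.eventually_all_finset]
      intro i hi
      by_contra hne
      exact hcon (Set.mem_biUnion hi hne)
    refine (measure_mono hsub).trans ((measure_biUnion_finset_le _ _).trans ?_)
    exact Finset.sum_le_sum fun i _ => avg_small lam (hT i) (b i) (G i L) (hG i L) B (h0 i L) (hB i L) _ hδ
  filter_upwards [ae_all_iff.2 key] with x hx ε hε
  obtain ⟨k, hk⟩ := exists_nat_one_div_lt hε
  obtain ⟨L, hL⟩ := hx k
  refine ⟨L, ?_⟩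
  filter_upwards [hL] with N hN i hi
  exact (hN i hi).trans hk.le

lemma ce_diff (lam : Measure X) [IsProbabilityMeasure lam] (R : X → X) (C : ℝ) (f g : X → ℂ)
    (hf : Measurable f) (hg : Measurable g) (hfC : ∀ x, ‖f x‖ ≤ C) (hgC : ∀ x, ‖g x‖ ≤ C) :
    ∫ x, ‖ce lam R C f x - ce lam R C g x‖ ∂lam ≤ ∫ x, ‖f x - g x‖ ∂lam := by
  have hfi : Integrable f lam := Integrable.of_bound hf.aestronglyMeasurable C (Eventually.of_forall hfC)
  have hgi : Integrable g lam := Integrable.of_bound hg.aestronglyMeasurable C (Eventually.of_forall hgC)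
  have h1 : ∫ x, ‖ce lam R C f x - ce lam R C g x‖ ∂lam =
      ∫ x, ‖(lam[f - g | MeasurableSpace.invariants R]) x‖ ∂lam := by
    refine integral_congr_ae ?_
    filter_upwards [ce_ae lam R C f hfC, ce_ae lam R C g hgC,
      condExp_sub hfi hgi (MeasurableSpace.invariants R)] with x h2 h3 h4
    rw [h2, h3, h4]
    rfl
  rw [h1]
  exact integral_norm_condExp_le (f - g)

/-- closure under approximation -/
theorem closure_dd [MeasurableSpace.CountablyGenerated X] {lam : Measure X} [IsProbabilityMeasure lam]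
    {T₁ T₀ R : X → X} (hT₁ : MeasurePreserving T₁ lam lam) (hT₀ : MeasurePreserving T₀ lam lam)
    (m : ℕ) (a : ℕ → ℕ)
    (hdd : ∀ (u : Fin m → ℕ) (M : ℕ), ∀ᵐ x ∂lam, Tendsto (fun N : ℕ => (N : ℂ)⁻¹ * ∑ n ∈ range N,
      (∏ j ∈ range m, dd lam (ex u j) M (T₁^[a j * (n + 1)] x) -
        ∏ j ∈ range m, ce lam R M (dd lam (ex u j) M) (T₀^[a j * (n + 1)] x))) atTop (𝓝 0))
    (f : ℕ → X → ℂ) (hf : ∀ j, Measurable (f j)) (C : ℝ) (hC : ∀ j x, ‖f j x‖ ≤ C) :
    ∀ᵐ x ∂lam, Tendsto (fun N : ℕ => (N : ℂ)⁻¹ * ∑ n ∈ range N,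
      (∏ j ∈ range m, f j (T₁^[a j * (n + 1)] x) -
        ∏ j ∈ range m, (lam[f j | MeasurableSpace.invariants R]) (T₀^[a j * (n + 1)] x))) atTop (𝓝 0) := by
  set M : ℕ := ⌈max C 0⌉₊ + 1 with hM
  have hCM : max C 0 + 1 ≤ (M : ℝ) := by
    rw [hM]; push_cast
    have := Nat.le_ceil (max C 0)
    linarith
  have hM1 : (1 : ℝ) ≤ M := by
    have : (0 : ℝ) ≤ max C 0 := le_max_right _ _
    linarith
  have hM0 : (0:ℝ) ≤ M := by linarith
  have hfM : ∀ j y, ‖f j y‖ ≤ M := fun j y => ((hC j y).trans (le_max_left _ _)).trans (by linarith)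
  have happ : ∀ (k : ℕ) (j : Fin m), ∃ u, ∫ z, ‖f j z - dd lam u M z‖ ∂lam ≤ 1 / ((k : ℝ) + 1) := fun k j =>
    dd_approx lam (f j) (hf j) (max C 0) (le_max_right _ _) (fun z => (hC _ z).trans (le_max_left _ _)) M hCM
      _ (by positivity)
  choose u hu using happ
  set D : ℕ → ℕ → X → ℂ := fun k j => dd lam (ex (u k) j) M with hD
  -- the two kinds of errors
  set G : ℕ × Bool → ℕ → X → ℝ := fun i k x => if i.2 = true then
    (if i.1 < m then ‖f i.1 x - D k i.1 x‖ else 0) else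
    (if i.1 < m then ‖ce lam R M (f i.1) x - ce lam R M (D k i.1) x‖ else 0) with hG
  have hu' : ∀ k, ∀ j < m, ∫ z, ‖f j z - D k j z‖ ∂lam ≤ 1 / ((k : ℝ) + 1) := by
    intro k j hj
    have e1 : ex (u k) j = u k ⟨j, hj⟩ := by rw [ex, dif_pos hj]
    rw [hD]; simp only; rw [e1]
    exact hu k ⟨j, hj⟩
  have mG : ∀ i k, Measurable (G i k) := by
    intro i k
    rw [hG]
    simp only
    split_ifs
    · exact ((hf _).sub (dd_meas _ _ _)).norm
    · exact measurable_const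
    · exact ((ce_meas lam R M _).sub (ce_meas lam R M _)).norm
    · exact measurable_const
  have G0 : ∀ i k x, 0 ≤ G i k x := by
    intro i k x
    rw [hG]
    simp only
    split_ifs <;> first | exact norm_nonneg _ | exact le_rfl
  have GB : ∀ i k x, G i k x ≤ M + M := by
    intro i k x
    rw [hG]
    simp only
    split_ifs
    · exact (norm_sub_le _ _).trans (add_le_add (hfM _ _) (dd_bound _ _ _ _))
    · linarith
    · exact (norm_sub_le _ _).trans (add_le_add (ce_bound lam R M hM0 _ _) (ce_bound lam R M hM0 _ _))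
    · linarith
  have Gle : ∀ i k, ∫ x, G i k x ∂lam ≤ 1 / ((k : ℝ) + 1) := by
    intro i k
    have hpos : (0:ℝ) ≤ 1 / ((k : ℝ) + 1) := by positivity
    by_cases hb : i.2 = true
    · by_cases hi : i.1 < m
      · have e1 : G i k = fun x => ‖f i.1 x - D k i.1 x‖ := by
          ext x; rw [hG]; simp only; rw [if_pos hb, if_pos hi]
        rw [e1]; exact hu' k i.1 hi
      · have e1 : G i k = fun x => 0 := by
          ext x; rw [hG]; simp only; rw [if_pos hb, if_neg hi]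
        rw [e1]; simpa using hpos
    · by_cases hi : i.1 < m
      · have e1 : G i k = fun x => ‖ce lam R M (f i.1) x - ce lam R M (D k i.1) x‖ := by
          ext x; rw [hG]; simp only; rw [if_neg hb, if_pos hi]
        rw [e1]
        exact (ce_diff lam R M (f i.1) (D k i.1) (hf _) (dd_meas _ _ _) (hfM _) (dd_bound _ _ _)).trans (hu' k i.1 hi)
      · have e1 : G i k = fun x => 0 := by
          ext x; rw [hG]; simp only; rw [if_neg hb, if_neg hi]
        rw [e1]; simpa using hpos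
  have Glim : ∀ i, Tendsto (fun k => ∫ x, G i k x ∂lam) atTop (𝓝 0) := fun i =>
    squeeze_zero (fun k => integral_nonneg fun x => G0 i k x) (fun k => Gle i k) tendsto_one_div_add_atTop_nhds_zero_nat
  have hsm := ex_small_fam (lam := lam) (Finset.range m ×ˢ (Finset.univ : Finset Bool))
    (fun i => if i.2 = true then T₁ else T₀) (fun i => by
      split_ifs
      · exact hT₁
      · exact hT₀) (fun i => a i.1) G mG (M + M) G0 GB Glim
  have hall : ∀ᵐ x ∂lam, ∀ k : ℕ, Tendsto (fun N : ℕ => (N : ℂ)⁻¹ * ∑ n ∈ range N,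
      (∏ j ∈ range m, D k j (T₁^[a j * (n + 1)] x) -
        ∏ j ∈ range m, ce lam R M (D k j) (T₀^[a j * (n + 1)] x))) atTop (𝓝 0) := by
    rw [ae_all_iff]; intro k
    exact hdd (u k) M
  have hce : ∀ᵐ x ∂lam, ∀ j t : ℕ, ce lam R M (f j) (T₀^[t] x) = (lam[f j | MeasurableSpace.invariants R]) (T₀^[t] x) := by
    rw [ae_all_iff]; intro j
    rw [ae_all_iff]; intro t
    exact (hT₀.iterate t).quasiMeasurePreserving.ae (ce_ae lam R M (f j) (hfM j))
  filter_upwards [hsm, hall, hce] with x h1 h2 h3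
  simp only [← h3]
  rw [Metric.tendsto_atTop]
  intro ε hε
  set W : ℝ := (M : ℝ) ^ m * (2 * m + 1) with hW
  have hW0 : 0 < W := by positivity
  obtain ⟨k, hk⟩ := h1 (ε / (2 * W)) (by positivity)
  obtain ⟨N1, hN1⟩ := eventually_atTop.1 hk
  obtain ⟨N2, hN2⟩ := (Metric.tendsto_atTop.1 (h2 k)) (ε / 2) (by positivity)
  refine ⟨max N1 N2, fun N hN => ?_⟩
  have g1 := hN1 N (le_trans (le_max_left _ _) hN)
  have g2 := hN2 N (le_trans (le_max_right _ _) hN)
  have g1a : ∀ j ∈ range m, (N : ℝ)⁻¹ * ∑ n ∈ range N, ‖f j (T₁^[a j * (n + 1)] x) - D k j (T₁^[a j * (n + 1)] x)‖ ≤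
      ε / (2 * W) := by
    intro j hj
    have := g1 (j, true) (Finset.mem_product.2 ⟨hj, Finset.mem_univ _⟩)
    simp only [hG, if_true] at this
    rw [Finset.mem_range] at hj
    simpa [hj] using this
  have g1b : ∀ j ∈ range m, (N : ℝ)⁻¹ * ∑ n ∈ range N, ‖ce lam R M (f j) (T₀^[a j * (n + 1)] x) -
      ce lam R M (D k j) (T₀^[a j * (n + 1)] x)‖ ≤ ε / (2 * W) := by
    intro j hj
    have := g1 (j, false) (Finset.mem_product.2 ⟨hj, Finset.mem_univ _⟩)
    rw [Finset.mem_range] at hj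
    simpa [hG, hj] using this
  rw [dist_zero_right] at g2 ⊢
  set b1 := (N : ℂ)⁻¹ * ∑ n ∈ range N, (∏ j ∈ range m, f j (T₁^[a j * (n + 1)] x) -
        ∏ j ∈ range m, ce lam R M (f j) (T₀^[a j * (n + 1)] x)) with hb1
  set b2 := (N : ℂ)⁻¹ * ∑ n ∈ range N, (∏ j ∈ range m, D k j (T₁^[a j * (n + 1)] x) -
        ∏ j ∈ range m, ce lam R M (D k j) (T₀^[a j * (n + 1)] x)) with hb2
  have hdiff : ‖b1 - b2‖ ≤ (M : ℝ) ^ m * ∑ j ∈ range m, ε / (2 * W) + (M : ℝ) ^ m * ∑ j ∈ range m, ε / (2 * W) := by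
    rw [hb1, hb2, ← mul_sub, ← Finset.sum_sub_distrib, norm_mul, norm_inv, Complex.norm_natCast]
    calc (N : ℝ)⁻¹ * ‖∑ n ∈ range N, ((∏ j ∈ range m, f j (T₁^[a j * (n + 1)] x) -
          ∏ j ∈ range m, ce lam R M (f j) (T₀^[a j * (n + 1)] x)) -
          (∏ j ∈ range m, D k j (T₁^[a j * (n + 1)] x) -
            ∏ j ∈ range m, ce lam R M (D k j) (T₀^[a j * (n + 1)] x)))‖
        ≤ (N : ℝ)⁻¹ * ∑ n ∈ range N, ((M : ℝ) ^ m * ∑ j ∈ range m,
            ‖f j (T₁^[a j * (n + 1)] x) - D k j (T₁^[a j * (n + 1)] x)‖ +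
          (M : ℝ) ^ m * ∑ j ∈ range m, ‖ce lam R M (f j) (T₀^[a j * (n + 1)] x) -
            ce lam R M (D k j) (T₀^[a j * (n + 1)] x)‖) := by
          apply mul_le_mul_of_nonneg_left _ (by positivity)
          refine norm_sum_le_of_le _ fun n _ => ?_
          have e1 : (∏ j ∈ range m, f j (T₁^[a j * (n + 1)] x) -
              ∏ j ∈ range m, ce lam R M (f j) (T₀^[a j * (n + 1)] x)) -
              (∏ j ∈ range m, D k j (T₁^[a j * (n + 1)] x) -
                ∏ j ∈ range m, ce lam R M (D k j) (T₀^[a j * (n + 1)] x)) =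
              (∏ j ∈ range m, f j (T₁^[a j * (n + 1)] x) - ∏ j ∈ range m, D k j (T₁^[a j * (n + 1)] x)) -
              (∏ j ∈ range m, ce lam R M (f j) (T₀^[a j * (n + 1)] x) -
                ∏ j ∈ range m, ce lam R M (D k j) (T₀^[a j * (n + 1)] x)) := by ring
          rw [e1]
          refine (norm_sub_le _ _).trans (add_le_add ?_ ?_)
          · exact prod_sub_le (M : ℝ) hM1 m (fun j => f j (T₁^[a j * (n + 1)] x))
              (fun j => D k j (T₁^[a j * (n + 1)] x)) (fun j => hfM _ _) (fun j => dd_bound _ _ _ _)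
          · exact prod_sub_le (M : ℝ) hM1 m (fun j => ce lam R M (f j) (T₀^[a j * (n + 1)] x))
              (fun j => ce lam R M (D k j) (T₀^[a j * (n + 1)] x)) (fun j => ce_bound lam R M hM0 _ _)
              (fun j => ce_bound lam R M hM0 _ _)
      _ = (M : ℝ) ^ m * ∑ j ∈ range m, (N : ℝ)⁻¹ * ∑ n ∈ range N,
            ‖f j (T₁^[a j * (n + 1)] x) - D k j (T₁^[a j * (n + 1)] x)‖ +
          (M : ℝ) ^ m * ∑ j ∈ range m, (N : ℝ)⁻¹ * ∑ n ∈ range N,
            ‖ce lam R M (f j) (T₀^[a j * (n + 1)] x) - ce lam R M (D k j) (T₀^[a j * (n + 1)] x)‖ := by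
          rw [Finset.sum_add_distrib, mul_add, ← Finset.mul_sum, ← Finset.mul_sum, Finset.sum_comm,
            mul_left_comm, Finset.mul_sum]
          congr 1
          rw [Finset.sum_comm, mul_left_comm, Finset.mul_sum]
      _ ≤ _ := by
          apply add_le_add
          · exact mul_le_mul_of_nonneg_left (Finset.sum_le_sum g1a) (by positivity)
          · exact mul_le_mul_of_nonneg_left (Finset.sum_le_sum g1b) (by positivity)
  have hle : (M : ℝ) ^ m * ∑ j ∈ range m, ε / (2 * W) + (M : ℝ) ^ m * ∑ j ∈ range m, ε / (2 * W) < ε / 2 := by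
    rw [Finset.sum_const, Finset.card_range, nsmul_eq_mul]
    have h5 : (M : ℝ) ^ m * (m * (ε / (2 * W))) + (M : ℝ) ^ m * (m * (ε / (2 * W))) =
        ((M : ℝ) ^ m * (2 * m)) * ε / (2 * W) := by ring
    rw [h5, div_lt_iff₀ (by positivity)]
    have h6 : (0:ℝ) < (M : ℝ) ^ m := by positivity
    have h7 : (M : ℝ) ^ m * (2 * m) < W := by rw [hW]; nlinarith
    nlinarith
  calc ‖b1‖ = ‖(b1 - b2) + b2‖ := by congr 1; ring
    _ ≤ ‖b1 - b2‖ + ‖b2‖ := norm_add_le _ _
    _ < ε := by linarith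

/-- all exponents and all bounded functions -/
theorem main [MeasurableSpace.CountablyGenerated X] (ν : Measure Bool) [IsProbabilityMeasure ν]
    (hp : 0 < ν {true}) (hq : 0 < ν {false}) {lam : Measure X} [IsProbabilityMeasure lam]
    {T R : X → X} {π : X → Y} {S : Y → Y} (h : Setup T R π S) (hT : MeasurePreserving T lam lam)
    (hR : MeasurePreserving R lam lam) (hπ : Measurable π) (hS : Measurable S) {ξ : Y → ℕ} (hξ : Measurable ξ)
    (hfr : ∀ᵐ x ∂lam, Fresh S ξ (π x)) :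
    ∀ᵐ θ ∂(PP ν), ∀ (m : ℕ) (a : Fin m → ℕ), StrictMono a → (∀ j, 0 < a j) → ∀ f : Fin m → X → ℂ,
        (∀ j, Measurable (f j)) → (∃ C : ℝ, ∀ j x, ‖f j x‖ ≤ C) →
        ∀ᵐ x ∂lam, Tendsto (fun N : ℕ => (N : ℂ)⁻¹ * ∑ n ∈ Finset.Icc 1 N,
          (∏ j, f j ((pm T R π ξ θ)^[a j * n] x) -
            ∏ j, (lam[f j | MeasurableSpace.invariants R]) (T^[a j * n] x))) atTop (𝓝 0) := by
  have hpr0 : 0 < pr ν := by
    unfold pr
    exact ENNReal.toReal_pos hp.ne' (measure_ne_top _ _)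
  have hpr1 : pr ν < 1 := by
    have h1 : 0 < ν.real {false} := ENNReal.toReal_pos hq.ne' (measure_ne_top _ _)
    rw [false_eq] at h1
    linarith
  have key : ∀ᵐ θ ∂(PP ν), ∀ (m : ℕ) (a : Fin m → ℕ) (u : Fin m → ℕ) (M r i : ℕ), StrictMono a →
      (∀ j, 0 < a j) → r < m → ∀ᵐ x ∂lam, Tendsto (fun l : ℕ => (1 / ((l ^ 8 : ℕ) : ℂ)) *
      ∑ n ∈ range (l ^ 8), Phi (cy S ξ (π x)) (ex a) (ha T R (fun j => dd lam (ex u j) M) x)
        (wa T (ex a) (fun j => ce lam R M (dd lam (ex u j) M)) r m x) r i n θ)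
      atTop (𝓝 0) := by
    rw [ae_all_iff]; intro m
    rw [ae_all_iff]; intro a
    rw [ae_all_iff]; intro u
    rw [ae_all_iff]; intro M
    rw [ae_all_iff]; intro r
    rw [ae_all_iff]; intro i
    by_cases hh : StrictMono a ∧ (∀ j, 0 < a j) ∧ r < m
    · obtain ⟨h1, h2, h3⟩ := hh
      have hex : ∀ j (h : j < m), ex a j = a ⟨j, h⟩ := fun j h => by rw [ex, dif_pos h]
      have hθ := ae_theta ν hpr0 hpr1 lam hT.measurable hR.measurable hπ hS hξ hfr (ex a)
        (fun j => dd lam (ex u j) M) (fun j => ce lam R M (dd lam (ex u j) M)) (fun j => dd_meas _ _ _)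
        (fun j => ce_meas _ _ _ _) M (Nat.cast_nonneg M) (fun j x => dd_bound _ _ _ x)
        (fun j x => ce_bound _ _ _ (Nat.cast_nonneg M) _ x) r m i
        (fun j hj => by
          rw [hex j (by omega), hex r h3]
          exact h1 (by exact hj))
        (by rw [hex r h3]; exact h2 _)
      filter_upwards [hθ] with θ hθ _ _ _
      exact hθ
    · filter_upwards with θ g1 g2 g3
      exact absurd ⟨g1, g2, g3⟩ hh
  filter_upwards [key] with θ hθ m a hmono ha0 f hf hfb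
  obtain ⟨C, hC⟩ := hfb
  have hfxm : ∀ j, Measurable (fx f j) := by
    intro j
    unfold fx
    split_ifs with h
    · exact hf _
    · exact measurable_const
  have hfxb : ∀ j z, ‖fx f j z‖ ≤ max C 0 := by
    intro j z
    unfold fx
    split_ifs with h
    · exact (hC _ z).trans (le_max_left _ _)
    · rw [norm_zero]; exact le_max_right _ _
  have h1 := closure_dd (R := R) (mp_pm (ξ := ξ) (θ := θ) h hT hR hπ hξ) hT m (ex a)
    (fun u M => conv_fam h hT hR hπ hξ m (ex a) (fun j => dd lam (ex u j) M) (fun j => dd_meas _ _ _) M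
      (Nat.cast_nonneg M) (fun j x => dd_bound _ _ _ x) (fun r hr i => hθ m a u M r i hmono ha0 hr))
    (fx f) hfxm (max C 0) hfxb
  have e0 : ∀ j : Fin m, fx f j = f j := fun j => by
    unfold fx; rw [dif_pos j.2]
  have e1 : ∀ j : Fin m, ex a j = a j := fun j => by
    unfold ex; rw [dif_pos j.2]
  filter_upwards [h1] with x hx
  refine hx.congr fun N => ?_
  rw [sum_Icc_shift]
  congr 1
  refine Finset.sum_congr rfl fun n _ => ?_
  rw [← Fin.prod_univ_eq_prod_range (fun j => fx f j ((pm T R π ξ θ)^[ex a j * (n + 1)] x)) m,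
    ← Fin.prod_univ_eq_prod_range (fun j => (lam[fx f j | MeasurableSpace.invariants R]) (T^[ex a j * (n + 1)] x)) m]
  congr 1
  · refine Finset.prod_congr rfl fun j _ => ?_
    rw [e0 j, e1 j]
  · refine Finset.prod_congr rfl fun j _ => ?_
    rw [e0 j, e1 j]

lemma pos_small {μ : Measure Y} [IsProbabilityMeasure μ] (ν : Measure Bool) [IsProbabilityMeasure ν] {ξ : Y → ℕ}
    (hξ : Measurable ξ) : 0 < (PP ν) {θ | μ (thin ξ θ) ≤ ν {true}} := by
  have hE : MeasurableSet {w : Om × Y | w.1 (ξ w.2) = true} := by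
    have := meas_bit2 (id : Y → Y) ξ measurable_id hξ 0
    simpa [cy] using this
  have h1 := Measure.prod_apply (μ := PP ν) (ν := μ) hE
  have h2 := Measure.prod_apply_symm (μ := PP ν) (ν := μ) hE
  have e1 : ∀ θ : Om, μ (Prod.mk θ ⁻¹' {w : Om × Y | w.1 (ξ w.2) = true}) = μ (thin ξ θ) := fun θ => rfl
  have e2 : ∀ y : Y, (PP ν) ((fun θ => (θ, y)) ⁻¹' {w : Om × Y | w.1 (ξ w.2) = true}) = ν {true} := by
    intro y
    have : ((fun θ : Om => (θ, y)) ⁻¹' {w : Om × Y | w.1 (ξ w.2) = true}) =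
        Set.pi (({ξ y} : Finset ℕ) : Set ℕ) (fun _ => {true}) := by
      ext θ; simp
    rw [this, Measure.infinitePi_pi _ (fun _ _ => measurableSet_singleton _), Finset.prod_singleton]
  simp only [e1] at h1
  simp only [e2] at h2
  rw [lintegral_const, measure_univ, mul_one] at h2
  have h3 : ∫⁻ θ, μ (thin ξ θ) ∂(PP ν) = ν {true} := by rw [← h1, h2]
  have hm : Measurable (fun θ => μ (thin ξ θ)) := measurable_measure_prodMk_left hE
  have h4 := measure_le_lintegral_pos (μ := PP ν) (f := fun θ => μ (thin ξ θ)) hm.aemeasurable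
  rw [h3] at h4
  exact h4

end Pool.Agent.V8H53.Com
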