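import Pool.Agent.V8H53.Com.Mom
import Pool.Agent.V8H53.Ind.Pos

/-!
# The perturbed map
-/

set_option autoImplicit false
set_option linter.unusedSectionVars false

open MeasureTheory Filter Topology Set Finset
open scoped ENNReal ComplexConjugate

namespace Pool.Agent.V8H53.Com

open Pool.Agent.V8H53.Ind
open Pool.Agent.R205.PC (ex fx dd dd_meas dd_bound dd_approx Fresh prod_sub_le prod_tele avg_small)

lemma cnt_succ (c : ℕ → ℕ) (θ : Om) (s : ℕ) :
    cnt c θ (s + 1) = cnt c θ s + (if θ (c s) = true then 1 else 0) := by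
  unfold cnt
  rw [Finset.range_add_one, Finset.filter_insert]
  split_ifs with h
  · rw [Finset.card_insert_of_notMem]
    rw [Finset.mem_filter, Finset.mem_range]
    omega
  · rfl

variable {X Y : Type*}

/-- the perturbed map: `R` is applied first where the coin of the label shows heads -/
def pm (T R : X → X) (π : X → Y) (ξ : Y → ℕ) (θ : Om) (x : X) : X :=
  T (if θ (ξ (π x)) = true then R x else x)

/-- the hypotheses on the maps -/
structure Setup (T R : X → X) (π : X → Y) (S : Y → Y) : Prop where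
  comm : ∀ x, T (R x) = R (T x)
  fac : ∀ x, π (T x) = S (π x)
  fib : ∀ x, π (R x) = π x

section algebra

variable {T R : X → X} {π : X → Y} {S : Y → Y} (h : Setup T R π S) (ξ : Y → ℕ) (θ : Om)
include h

lemma fac_iter (t : ℕ) (x : X) : π (T^[t] x) = S^[t] (π x) := by
  induction t with
  | zero => rfl
  | succ t ih => rw [Function.iterate_succ_apply', Function.iterate_succ_apply', h.fac, ih]

lemma fib_iter (e : ℕ) (x : X) : π (R^[e] x) = π x := by
  induction e with
  | zero => rfl
  | succ e ih => rw [Function.iterate_succ_apply', h.fib, ih]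

lemma comm_iter (e : ℕ) (x : X) : T (R^[e] x) = R^[e] (T x) := by
  induction e with
  | zero => rfl
  | succ e ih => rw [Function.iterate_succ_apply', Function.iterate_succ_apply', h.comm, ih]

lemma pm_iter (t : ℕ) (x : X) :
    (pm T R π ξ θ)^[t] x = R^[cnt (cy S ξ (π x)) θ t] (T^[t] x) := by
  induction t with
  | zero => simp [cnt]
  | succ t ih =>
    rw [Function.iterate_succ_apply', ih, cnt_succ]
    set e := cnt (cy S ξ (π x)) θ t with he
    have h1 : π (R^[e] (T^[t] x)) = S^[t] (π x) := by rw [fib_iter h, fac_iter h]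
    unfold pm
    rw [h1]
    have h2 : cy S ξ (π x) t = ξ (S^[t] (π x)) := rfl
    rw [h2]
    split_ifs with hb
    · rw [← Function.iterate_succ_apply' R, comm_iter h, ← Function.iterate_succ_apply' T]
    · rw [comm_iter h, ← Function.iterate_succ_apply' T]
      rfl

lemma pm_inv {E : Type*} (g : X → E) (hg : ∀ x, g (R x) = g x) (t : ℕ) (x : X) :
    g ((pm T R π ξ θ)^[t] x) = g (T^[t] x) := by
  have hg' : ∀ e x, g (R^[e] x) = g x := by
    intro e
    induction e with
    | zero => intro x; rfl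
    | succ e ih => intro x; rw [Function.iterate_succ_apply', hg, ih]
  rw [pm_iter h, hg']

end algebra

variable [MeasurableSpace X] [MeasurableSpace Y]

lemma meas_pm {T R : X → X} {π : X → Y} {ξ : Y → ℕ} {θ : Om} (hT : Measurable T) (hR : Measurable R)
    (hπ : Measurable π) (hξ : Measurable ξ) : Measurable (pm T R π ξ θ) := by
  unfold pm
  refine hT.comp (Measurable.ite ?_ hR measurable_id)
  exact hπ (meas_thin hξ θ)

lemma mp_pm {lam : Measure X} {T R : X → X} {π : X → Y} {S : Y → Y} {ξ : Y → ℕ} {θ : Om}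
    (h : Setup T R π S) (hT : MeasurePreserving T lam lam)
    (hR : MeasurePreserving R lam lam) (hπ : Measurable π) (hξ : Measurable ξ) :
    MeasurePreserving (pm T R π ξ θ) lam lam := by
  set A : Set X := {x | θ (ξ (π x)) = true} with hA
  have hAm : MeasurableSet A := hπ (meas_thin hξ θ)
  have hφm : Measurable (fun x => if θ (ξ (π x)) = true then R x else x) :=
    Measurable.ite hAm hR.measurable measurable_id
  have hφ : MeasurePreserving (fun x => if θ (ξ (π x)) = true then R x else x) lam lam := by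
    refine ⟨hφm, ?_⟩
    ext B hB
    rw [Measure.map_apply hφm hB]
    have e1 : (fun x => if θ (ξ (π x)) = true then R x else x) ⁻¹' B = R ⁻¹' (A ∩ B) ∪ (B \ A) := by
      ext x
      simp only [Set.mem_preimage, Set.mem_union, Set.mem_inter_iff, Set.mem_sdiff, hA, Set.mem_ofPred_eq, h.fib]
      by_cases hb : θ (ξ (π x)) = true
      · simp [hb]
      · simp [hb]
    have hdisj : Disjoint (R ⁻¹' (A ∩ B)) (B \ A) := by
      rw [Set.disjoint_left]
      rintro x ⟨hx1, _⟩ ⟨_, hx2⟩
      apply hx2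
      rw [hA, Set.mem_ofPred_eq, h.fib] at hx1
      exact hx1
    rw [e1, measure_union hdisj (hB.diff hAm), hR.measure_preimage (hAm.inter hB).nullMeasurableSet, Set.inter_comm]
    exact measure_inter_add_sdiff B hAm
  exact hT.comp hφ

/-- the array of values -/
def ha {α : Type*} (T R : X → X) (f : ℕ → X → α) (x : X) : ℕ → ℕ → ℕ → α := fun j t e => f j (R^[e] (T^[t] x))

/-- the weights -/
noncomputable def wa (T : X → X) (a : ℕ → ℕ) (g : ℕ → X → ℂ) (r m : ℕ) (x : X) (n : ℕ) : ℂ :=
  ∏ j ∈ Finset.Ico (r + 1) m, g j (T^[a j * (n + 1)] x)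

lemma meas_Phi2 {T R : X → X} (hT : Measurable T) (hR : Measurable R) {π : X → Y} (hπ : Measurable π)
    {S : Y → Y} (hS : Measurable S) {ξ : Y → ℕ} (hξ : Measurable ξ) (a : ℕ → ℕ) (f g : ℕ → X → ℂ)
    (hf : ∀ j, Measurable (f j)) (hg : ∀ j, Measurable (g j)) (r m i n : ℕ) :
    Measurable (fun w : Om × X => Phi (cy S ξ (π w.2)) a (ha T R f w.2) (wa T a g r m w.2) r i n w.1) := by
  have hc : ∀ s, Measurable (fun w : Om × X => cnt (cy S ξ (π w.2)) w.1 s) := fun s =>
    (meas_cnt2 S ξ hS hξ s).comp (measurable_fst.prodMk (hπ.comp measurable_snd))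
  have hRi : Measurable (fun q : ℕ × X => R^[q.1] q.2) :=
    measurable_from_prod_countable_right fun e => hR.iterate e
  have hv : ∀ j t k, Measurable (fun w : Om × X => ha T R f w.2 j t (cnt (cy S ξ (π w.2)) w.1 t + k)) := by
    intro j t k
    exact (hf j).comp (hRi.comp (((hc t).add_const k).prodMk ((hT.iterate t).comp measurable_snd)))
  unfold Phi wa
  refine Measurable.mul (Measurable.mul ?_ ?_) (Measurable.sub ?_ ?_)
  · exact Finset.measurable_fun_prod _ fun j _ => (hg j).comp ((hT.iterate _).comp measurable_snd)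
  · exact Finset.measurable_fun_prod _ fun j _ => hv j _ 0
  · exact hv r _ i
  · exact hv r _ (i + 1)

variable (ν : Measure Bool) [IsProbabilityMeasure ν]

theorem ae_theta (hp : 0 < pr ν) (hq : pr ν < 1) (lam : Measure X) [IsProbabilityMeasure lam]
    {T R : X → X} (hT : Measurable T) (hR : Measurable R) {π : X → Y} (hπ : Measurable π)
    {S : Y → Y} (hS : Measurable S) {ξ : Y → ℕ} (hξ : Measurable ξ)
    (hfr : ∀ᵐ x ∂lam, Fresh S ξ (π x)) (a : ℕ → ℕ) (f g : ℕ → X → ℂ)
    (hf : ∀ j, Measurable (f j)) (hg : ∀ j, Measurable (g j)) (C : ℝ) (hC0 : 0 ≤ C)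
    (hfC : ∀ j x, ‖f j x‖ ≤ C) (hgC : ∀ j x, ‖g j x‖ ≤ C) (r m i : ℕ)
    (ha' : ∀ j < r, a j + 1 ≤ a r) (har : 1 ≤ a r) :
    ∀ᵐ θ ∂(PP ν), ∀ᵐ x ∂lam, Tendsto (fun l : ℕ => (1 / ((l ^ 8 : ℕ) : ℂ)) *
      ∑ n ∈ range (l ^ 8), Phi (cy S ξ (π x)) a (ha T R f x) (wa T a g r m x) r i n θ)
      atTop (𝓝 0) := by
  have hset : MeasurableSet {w : Om × X | Tendsto (fun l : ℕ => (1 / ((l ^ 8 : ℕ) : ℂ)) *
      ∑ n ∈ range (l ^ 8), Phi (cy S ξ (π w.2)) a (ha T R f w.2) (wa T a g r m w.2) r i n w.1)
      atTop (𝓝 0)} :=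
    measurableSet_tendsto (𝓝 0) fun l =>
      (Finset.measurable_fun_sum _ fun n _ => meas_Phi2 hT hR hπ hS hξ a f g hf hg r m i n).const_mul _
  rw [Measure.ae_ae_comm hset]
  filter_upwards [hfr] with x hx
  refine conv_pow (cy S ξ (π x)) ν hp hq hx a (ha T R f x) (wa T a g r m x) C
    (C ^ (Finset.Ico (r + 1) m).card) hC0 (by positivity) (fun j t e => hfC j _) ?_ r i ha' har
  intro n
  unfold wa
  rw [norm_prod]
  refine (Finset.prod_le_prod (fun j _ => norm_nonneg _) (fun j _ => hgC j _)).trans ?_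
  simp

end Pool.Agent.V8H53.Com
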