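import Pool.Agent.V8H53.Ind.Moment

/-!
# Second moments of products along a random perturbation
-/

set_option autoImplicit false
set_option linter.unusedSectionVars false

open MeasureTheory Filter Topology Set Finset
open scoped ENNReal ComplexConjugate

namespace Pool.Agent.V8H53.Com

open Pool.Agent.V8H53.Ind

lemma moment_abs {Ω : Type*} [MeasurableSpace Ω] (P : Measure Ω) [IsProbabilityMeasure P]
    (Ψ : ℕ → Ω → ℂ) (mΨ : ∀ n, Measurable (Ψ n)) (D : ℝ) (hD0 : 0 ≤ D) (nΨ : ∀ n ω, ‖Ψ n ω‖ ≤ D)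
    (W N : ℕ) (κ : ℝ) (hκ0 : 0 ≤ κ)
    (hfar : ∀ n < N, ∀ n', n' + W ≤ n → ‖∫ ω, Ψ n ω * conj (Ψ n' ω) ∂P‖ ≤ κ) :
    ∫ ω, ‖∑ n ∈ range N, Ψ n ω‖ ^ 2 ∂P ≤ N * (D ^ 2 * (2 * W + 1) + N * κ) := by
  have hint : ∀ n n', Integrable (fun θ => Ψ n θ * conj (Ψ n' θ)) P := by
    intro n n'
    refine Integrable.of_bound ((mΨ n).mul (Complex.continuous_conj.measurable.comp (mΨ n'))).aestronglyMeasurable (D * D) ?_
    filter_upwards with θ
    rw [norm_mul, Complex.norm_conj]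
    exact mul_le_mul (nΨ n θ) (nΨ n' θ) (norm_nonneg _) hD0
  have htriv : ∀ n n', ‖∫ θ, Ψ n θ * conj (Ψ n' θ) ∂P‖ ≤ D ^ 2 := by
    intro n n'
    have := norm_integral_le_of_norm_le_const (μ := P) (C := D ^ 2)
      (f := fun θ => Ψ n θ * conj (Ψ n' θ)) (Eventually.of_forall fun θ => by
        rw [norm_mul, Complex.norm_conj, sq]
        exact mul_le_mul (nΨ n θ) (nΨ n' θ) (norm_nonneg _) hD0)
    simpa using this
  have hfar2 : ∀ n < N, ∀ n' < N, (n' + W ≤ n ∨ n + W ≤ n') → ‖∫ θ, Ψ n θ * conj (Ψ n' θ) ∂P‖ ≤ κ := by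
    intro n hn n' hn' hnn
    rcases hnn with h1 | h1
    · exact hfar n hn n' h1
    · have h2 := hfar n' hn' n h1
      have e1 : ∫ θ, Ψ n θ * conj (Ψ n' θ) ∂P = conj (∫ θ, Ψ n' θ * conj (Ψ n θ) ∂P) := by
        rw [← integral_conj]
        congr 1; ext θ
        simp [mul_comm]
      rw [e1, Complex.norm_conj]
      exact h2
  have e1 : ∀ θ, ((‖∑ n ∈ range N, Ψ n θ‖ ^ 2 : ℝ) : ℂ) = ∑ n ∈ range N, ∑ n' ∈ range N, Ψ n θ * conj (Ψ n' θ) := by
    intro θ
    have : ((‖∑ n ∈ range N, Ψ n θ‖ ^ 2 : ℝ) : ℂ) = (∑ n ∈ range N, Ψ n θ) * conj (∑ n ∈ range N, Ψ n θ) := by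
      rw [Complex.mul_conj, Complex.normSq_eq_norm_sq]
    rw [this, map_sum, Finset.sum_mul_sum]
  have e2 : ((∫ θ, ‖∑ n ∈ range N, Ψ n θ‖ ^ 2 ∂P : ℝ) : ℂ) =
      ∑ n ∈ range N, ∑ n' ∈ range N, ∫ θ, Ψ n θ * conj (Ψ n' θ) ∂P := by
    rw [← integral_complex_ofReal]
    simp_rw [e1]
    rw [integral_finsetSum _ (fun n _ => integrable_finsetSum _ (fun n' _ => hint n n'))]
    simp_rw [integral_finsetSum _ (fun n' _ => hint _ n')]
  have e3 : ∫ θ, ‖∑ n ∈ range N, Ψ n θ‖ ^ 2 ∂P ≤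
      ∑ n ∈ range N, ∑ n' ∈ range N, ‖∫ θ, Ψ n θ * conj (Ψ n' θ) ∂P‖ := by
    have h1 : ‖((∫ θ, ‖∑ n ∈ range N, Ψ n θ‖ ^ 2 ∂P : ℝ) : ℂ)‖ ≤
      ∑ n ∈ range N, ∑ n' ∈ range N, ‖∫ θ, Ψ n θ * conj (Ψ n' θ) ∂P‖ := by
      rw [e2]
      refine (norm_sum_le _ _).trans (Finset.sum_le_sum fun n _ => norm_sum_le _ _)
    rw [Complex.norm_real, Real.norm_eq_abs] at h1
    exact (le_abs_self _).trans h1
  refine e3.trans ?_
  have hrow : ∀ n ∈ range N, ∑ n' ∈ range N, ‖∫ θ, Ψ n θ * conj (Ψ n' θ) ∂P‖ ≤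
      D ^ 2 * (2 * W + 1) + N * κ := by
    intro n hn
    rw [Finset.mem_range] at hn
    rw [← Finset.sum_filter_add_sum_filter_not (range N) (fun n' => n' ∈ Finset.Icc (n - W) (n + W))]
    apply add_le_add
    · refine (Finset.sum_le_sum fun n' _ => htriv n n').trans ?_
      rw [Finset.sum_const, nsmul_eq_mul, mul_comm]
      apply mul_le_mul_of_nonneg_left _ (by positivity)
      have h2 : ({n' ∈ range N | n' ∈ Finset.Icc (n - W) (n + W)} : Finset ℕ).card ≤ 2 * W + 1 := by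
        refine (Finset.card_le_card (t := Finset.Icc (n - W) (n + W)) ?_).trans ?_
        · intro x hx
          rw [Finset.mem_filter] at hx
          exact hx.2
        · rw [Nat.card_Icc]; omega
      exact_mod_cast h2
    · have h3 : ∀ n' ∈ (range N).filter (fun n' => ¬ n' ∈ Finset.Icc (n - W) (n + W)),
          ‖∫ θ, Ψ n θ * conj (Ψ n' θ) ∂P‖ ≤ κ := by
        intro n' hn'
        rw [Finset.mem_filter, Finset.mem_Icc, not_and_or, Finset.mem_range] at hn'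
        apply hfar2 n hn n' hn'.1
        rcases hn'.2 with h4 | h4
        · left; omega
        · right; omega
      refine (Finset.sum_le_sum h3).trans ?_
      rw [Finset.sum_const, nsmul_eq_mul]
      apply mul_le_mul_of_nonneg_right _ hκ0
      have := Finset.card_filter_le (range N) (fun n' => ¬ n' ∈ Finset.Icc (n - W) (n + W))
      rw [Finset.card_range] at this
      exact_mod_cast this
  refine (Finset.sum_le_sum hrow).trans ?_
  rw [Finset.sum_const, Finset.card_range, nsmul_eq_mul]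

variable (c : ℕ → ℕ)

/-- the terms: `h j t e` is the value of the function number `j` at the time `t` when the number of
perturbations up to this time is `e` -/
noncomputable def Phi (a : ℕ → ℕ) (h : ℕ → ℕ → ℕ → ℂ) (w : ℕ → ℂ) (r i n : ℕ) (θ : Om) : ℂ :=
  w n * (∏ j ∈ range r, h j (a j * (n + 1)) (cnt c θ (a j * (n + 1)))) *
    (h r (a r * (n + 1)) (cnt c θ (a r * (n + 1)) + i) -
      h r (a r * (n + 1)) (cnt c θ (a r * (n + 1)) + i + 1))

lemma meas_hc (g : ℕ → ℂ) (t i : ℕ) : Measurable (fun θ : Om => g (cnt c θ t + i)) :=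
  (Measurable.of_discrete (f := fun e : ℕ => g (e + i))).comp (meas_cnt c t)

lemma meas_Phi (a : ℕ → ℕ) (h : ℕ → ℕ → ℕ → ℂ) (w : ℕ → ℂ) (r i n : ℕ) :
    Measurable (Phi c a h w r i n) := by
  unfold Phi
  refine ((Finset.measurable_fun_prod _ fun j _ => ?_).const_mul _).mul ?_
  · exact meas_hc c (h j (a j * (n + 1))) _ 0
  · exact (meas_hc c (h r (a r * (n + 1))) _ i).sub (meas_hc c (h r (a r * (n + 1))) _ (i + 1))

lemma Phi_bdd (a : ℕ → ℕ) (h : ℕ → ℕ → ℕ → ℂ) (w : ℕ → ℂ) (C Cw : ℝ) (hC0 : 0 ≤ C)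
    (hCw0 : 0 ≤ Cw) (hC : ∀ j t e, ‖h j t e‖ ≤ C) (hw : ∀ n, ‖w n‖ ≤ Cw) (r i n : ℕ) (θ : Om) :
    ‖Phi c a h w r i n θ‖ ≤ Cw * C ^ r * (C + C) := by
  unfold Phi
  rw [norm_mul, norm_mul]
  refine mul_le_mul (mul_le_mul (hw n) ?_ (norm_nonneg _) hCw0) ?_ (norm_nonneg _) (by positivity)
  · rw [norm_prod]
    refine (Finset.prod_le_prod (fun j _ => norm_nonneg _) (fun j _ => hC j _ _)).trans ?_
    simp
  · exact (norm_sub_le _ _).trans (add_le_add (hC _ _ _) (hC _ _ _))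

lemma cnt_inv {T : Finset ℕ} {M0 R : ℕ} (hT : ∀ t ∈ T, M0 ≤ t) (hfr : ∀ t ∈ T, ∀ s < R, s ≠ t → c s ≠ c t)
    (hMR : M0 ≤ R) {s : ℕ} (hs : s ≤ M0) : Inv (T.image c) (fun θ => cnt c θ s) := by
  intro i hi θ b
  obtain ⟨t, ht, rfl⟩ := Finset.mem_image.1 hi
  simp only
  apply cnt_congr c (B := s) le_rfl
  intro u hu
  have h1 := hT t ht
  rw [Function.update_of_ne]
  exact hfr t ht u (by omega) (by omega)

variable (ν : Measure Bool) [IsProbabilityMeasure ν]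

lemma corr (hp : 0 < pr ν) (hq : pr ν < 1) (G Q K : ℕ) (hG : 0 < G) (hK : 0 < K) (hB : Blocks c G Q K)
    (a : ℕ → ℕ) (h : ℕ → ℕ → ℕ → ℂ) (w : ℕ → ℂ) (C Cw : ℝ) (hC0 : 0 ≤ C)
    (hCw0 : 0 ≤ Cw) (hC : ∀ j t e, ‖h j t e‖ ≤ C) (hw : ∀ n, ‖w n‖ ≤ Cw) (r i : ℕ)
    (ha : ∀ j < r, a j + 1 ≤ a r) (har : 1 ≤ a r)
    (n' n : ℕ) (hn : n' + (2 * G + 2) ≤ n) (hR : a r * (n + 1) ≤ (Q + 1) * G) :
    ‖∫ θ, Phi c a h w r i n θ * conj (Phi c a h w r i n' θ) ∂(PP ν)‖ ≤
      (Cw * C ^ r * (C + C)) ^ 2 / Real.sqrt (K * (pr ν * (1 - pr ν))) := by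
  set t := a r * (n + 1) with ht
  set M0 : ℕ := max ((a r - 1) * (n + 1)) (a r * (n' + 1)) with hM0
  have hM : M0 + 2 * G ≤ t := by
    obtain ⟨e, he⟩ := Nat.exists_eq_add_of_le har
    obtain ⟨d, rfl⟩ := Nat.exists_eq_add_of_le hn
    rw [hM0, ht]
    have h1 : (a r - 1) * (n' + (2 * G + 2) + d + 1) + 2 * G ≤ a r * (n' + (2 * G + 2) + d + 1) := by
      rw [he]
      have : (1 + e - 1) = e := by omega
      rw [this]
      nlinarith
    have h2 : a r * (n' + 1) + 2 * G ≤ a r * (n' + (2 * G + 2) + d + 1) := by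
      rw [he]
      nlinarith
    omega
  set b := M0 / G with hb
  have hb1 : M0 < (b + 1) * G := by
    have := Nat.lt_mul_div_succ M0 hG
    rw [mul_comm]; exact this
  have hb2 : (b + 2) * G ≤ t := by
    have h1 : b * G ≤ M0 := Nat.div_mul_le_self M0 G
    have h2 : (b + 2) * G = b * G + 2 * G := by ring
    omega
  have hbQ : b < Q := by
    by_contra hcon
    have h1 : (Q + 2) * G ≤ (b + 2) * G := Nat.mul_le_mul_right G (by omega)
    have h2 : (Q + 2) * G = (Q + 1) * G + G := by ring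
    omega
  obtain ⟨T, hT1, hT2, hT3⟩ := hB b hbQ
  have hTt : T ⊆ range t := by
    intro s hs
    rw [Finset.mem_range]
    have := (hT2 s hs).2
    omega
  have hinj : Set.InjOn c T := by
    intro s hs u hu hsu
    by_contra hne
    have h1 := (hT2 u hu).2
    exact hT3 s hs u (by omega) (fun h => hne h.symm) hsu.symm
  have hTM : ∀ s ∈ T, M0 ≤ s := fun s hs => by
    have := (hT2 s hs).1
    omega
  have hinv : ∀ s ≤ M0, Inv (T.image c) (fun θ => cnt c θ s) := fun s hs =>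
    cnt_inv c (R := (Q + 1) * G) hTM hT3 (by omega) hs
  have hcard : (T.image c).card = K := by rw [Finset.card_image_of_injOn hinj, hT1]
  set V : Om → ℂ := fun θ => w n * (∏ j ∈ range r, h j (a j * (n + 1)) (cnt c θ (a j * (n + 1)))) *
    conj (Phi c a h w r i n' θ) with hV
  set H : ℕ → Om → ℂ := fun e θ => h r t (oc c T θ t + e + i) with hH
  have mV : Measurable V := by
    refine ((Finset.measurable_fun_prod _ fun j _ => ?_).const_mul _).mul
      (Complex.continuous_conj.measurable.comp (meas_Phi c a h w r i n'))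
    exact meas_hc c (h j (a j * (n + 1))) _ 0
  have nV : ∀ θ, ‖V θ‖ ≤ Cw * C ^ r * (Cw * C ^ r * (C + C)) := by
    intro θ
    rw [hV]
    simp only
    rw [norm_mul, norm_mul, Complex.norm_conj]
    refine mul_le_mul (mul_le_mul (hw n) ?_ (norm_nonneg _) hCw0)
      (Phi_bdd c a h w C Cw hC0 hCw0 hC hw r i n' θ) (norm_nonneg _) (by positivity)
    rw [norm_prod]
    refine (Finset.prod_le_prod (fun j _ => norm_nonneg _) (fun j _ => hC j _ _)).trans ?_
    simp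
  have iV : Inv (T.image c) V := by
    intro k hk θ b'
    rw [hV]
    simp only
    have e1 : ∀ s ≤ M0, cnt c (Function.update θ k b') s = cnt c θ s := fun s hs => hinv s hs k hk θ b'
    have e2 : ∀ j ∈ range r, h j (a j * (n + 1)) (cnt c (Function.update θ k b') (a j * (n + 1))) =
        h j (a j * (n + 1)) (cnt c θ (a j * (n + 1))) := by
      intro j hj
      rw [Finset.mem_range] at hj
      rw [e1]
      refine le_trans ?_ (le_max_left _ _)
      apply Nat.mul_le_mul_right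
      have := ha j hj
      omega
    have e3 : Phi c a h w r i n' (Function.update θ k b') = Phi c a h w r i n' θ := by
      unfold Phi
      have e4 : ∀ j ∈ range r, h j (a j * (n' + 1)) (cnt c (Function.update θ k b') (a j * (n' + 1))) =
          h j (a j * (n' + 1)) (cnt c θ (a j * (n' + 1))) := by
        intro j hj
        rw [Finset.mem_range] at hj
        rw [e1]
        refine le_trans ?_ (le_max_right _ _)
        apply Nat.mul_le_mul_right
        have := ha j hj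
        omega
      rw [Finset.prod_congr rfl e4, e1 (a r * (n' + 1)) (le_max_right _ _)]
    rw [Finset.prod_congr rfl e2, e3]
  have mH : ∀ e, Measurable (H e) := fun e =>
    (Measurable.of_discrete (f := fun k : ℕ => h r t (k + e + i))).comp (meas_oc c T t)
  have iH : ∀ e, Inv (T.image c) (H e) := by
    intro e k hk θ b'
    obtain ⟨s, hs, rfl⟩ := Finset.mem_image.1 hk
    rw [hH]
    simp only
    have : oc c T (Function.update θ (c s) b') t = oc c T θ t := by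
      unfold oc
      congr 1
      apply Finset.filter_congr
      intro u hu
      rw [Finset.mem_sdiff, Finset.mem_range] at hu
      rw [Function.update_of_ne]
      exact hT3 s hs u (by omega) (fun hh => hu.2 (hh ▸ hs))
    rw [this]
  have key := smooth ν hp hq (T.image c) (by rw [hcard]; exact hK) V mV _ nV iV H mH C
    (fun e θ => hC _ _ _) iH
  have e1 : ∀ θ, Phi c a h w r i n θ * conj (Phi c a h w r i n' θ) =
      -(V θ * (H (cE (T.image c) θ + 1) θ - H (cE (T.image c) θ) θ)) := by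
    intro θ
    conv_lhs => rw [Phi]
    rw [hV, hH]
    simp only
    have e2 : cnt c θ (a r * (n + 1)) = oc c T θ t + cE (T.image c) θ := cnt_split c T θ hTt hinj
    rw [e2, ← ht]
    have e3 : oc c T θ t + (cE (T.image c) θ + 1) + i = oc c T θ t + cE (T.image c) θ + i + 1 := by ring
    rw [e3]
    ring
  simp_rw [e1]
  rw [integral_neg, norm_neg]
  refine key.trans ?_
  rw [hcard]
  have hV1 : ∫ θ, ‖V θ‖ ∂(PP ν) ≤ Cw * C ^ r * (Cw * C ^ r * (C + C)) := by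
    have h1 : ∫ θ, ‖V θ‖ ∂(PP ν) ≤ ∫ _θ, Cw * C ^ r * (Cw * C ^ r * (C + C)) ∂(PP ν) := by
      refine integral_mono_of_nonneg (Eventually.of_forall fun θ => norm_nonneg _) (integrable_const _)
        (Eventually.of_forall nV)
    simpa using h1
  calc C / Real.sqrt (K * (pr ν * (1 - pr ν))) * ∫ θ, ‖V θ‖ ∂(PP ν)
      ≤ C / Real.sqrt (K * (pr ν * (1 - pr ν))) * (Cw * C ^ r * (Cw * C ^ r * (C + C))) :=
        mul_le_mul_of_nonneg_left hV1 (by positivity)
    _ = (C * (Cw * C ^ r * (Cw * C ^ r * (C + C)))) / Real.sqrt (K * (pr ν * (1 - pr ν))) := by ring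
    _ ≤ _ := by
        apply div_le_div_of_nonneg_right _ (Real.sqrt_nonneg _)
        have h3 : (Cw * C ^ r * (C + C)) ^ 2 = (C + C) * (Cw * C ^ r * (Cw * C ^ r * (C + C))) := by ring
        rw [h3]
        apply mul_le_mul_of_nonneg_right _ (by positivity)
        linarith

/-- almost sure convergence along eighth powers -/
theorem conv_pow (hp : 0 < pr ν) (hq : pr ν < 1) (hf : FreshSeq c)
    (a : ℕ → ℕ) (h : ℕ → ℕ → ℕ → ℂ) (w : ℕ → ℂ) (C Cw : ℝ) (hC0 : 0 ≤ C)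
    (hCw0 : 0 ≤ Cw) (hC : ∀ j t e, ‖h j t e‖ ≤ C) (hw : ∀ n, ‖w n‖ ≤ Cw) (r i : ℕ)
    (ha : ∀ j < r, a j + 1 ≤ a r) (har : 1 ≤ a r) :
    ∀ᵐ θ ∂(PP ν), Tendsto (fun l : ℕ => (1 / ((l ^ 8 : ℕ) : ℂ)) *
      ∑ n ∈ range (l ^ 8), Phi c a h w r i n θ) atTop (𝓝 0) := by
  set D : ℝ := Cw * C ^ r * (C + C) with hD
  have hD0 : 0 ≤ D := by positivity
  have hpq : 0 < pr ν * (1 - pr ν) := mul_pos hp (by linarith)
  set ρ := Real.sqrt (pr ν * (1 - pr ν)) with hρ
  have hρ0 : 0 < ρ := Real.sqrt_pos.2 hpq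
  refine ae_tendsto (PP ν) _ ?_ D ?_ (D ^ 2 * (17 + 1 / ρ)) ?_
  · intro l
    exact (Finset.measurable_fun_sum _ fun n _ => meas_Phi c a h w r i n).const_mul _
  · intro l θ
    rw [norm_mul]
    rcases Nat.eq_zero_or_pos l with h0 | h0
    · subst h0; simp [hD0]
    · have hl : (0:ℝ) < ((l ^ 8 : ℕ) : ℝ) := by positivity
      have h1 : ‖∑ n ∈ range (l ^ 8), Phi c a h w r i n θ‖ ≤ ((l ^ 8 : ℕ) : ℝ) * D := by
        refine (norm_sum_le_of_le _ fun n _ => Phi_bdd c a h w C Cw hC0 hCw0 hC hw r i n θ).trans ?_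
        rw [Finset.sum_const, Finset.card_range, nsmul_eq_mul]
      rw [norm_div, norm_one, Complex.norm_natCast, one_div, ← div_eq_inv_mul, div_le_iff₀ hl, mul_comm]
      exact h1
  · filter_upwards [eventually_ge_atTop 64, eventually_ge_atTop (a r)] with l hl hla
    have hl1 : (1:ℝ) ≤ l := by
      have : 1 ≤ l := by omega
      exact_mod_cast this
    have hl0 : (0:ℝ) < l := by linarith
    have hGl0 : 0 < Gl l := by unfold Gl; positivity
    have hGlow : l ^ 5 ≤ Gl l := by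
      unfold Gl
      have h1 : l < 2 ^ (Nat.log 2 l + 1) := Nat.lt_pow_succ_log_self (by norm_num) l
      have h2 : l ≤ 2 * 2 ^ Nat.log 2 l + 1 := by rw [pow_succ] at h1; omega
      calc l ^ 5 = l ^ 4 * l := by ring
        _ ≤ l ^ 4 * (2 * 2 ^ Nat.log 2 l + 1) := by gcongr
    have hrange : ∀ n < l ^ 8, a r * (n + 1) ≤ (l ^ 5 + 1) * Gl l := by
      intro n hn
      calc a r * (n + 1) ≤ l * l ^ 8 := Nat.mul_le_mul hla (by omega)
        _ = l ^ 9 := by ring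
        _ ≤ l ^ 10 := Nat.pow_le_pow_right (by omega) (by norm_num)
        _ = l ^ 5 * l ^ 5 := by ring
        _ ≤ (l ^ 5 + 1) * Gl l := Nat.mul_le_mul (by omega) hGlow
    have hm := moment_abs (PP ν) (Phi c a h w r i) (meas_Phi c a h w r i) D hD0
      (Phi_bdd c a h w C Cw hC0 hCw0 hC hw r i) (2 * Gl l + 2) (l ^ 8)
      (D ^ 2 / Real.sqrt (((l ^ 4 : ℕ) : ℝ) * (pr ν * (1 - pr ν)))) (by positivity)
      (fun n hn n' hnn => corr c ν hp hq (Gl l) (l ^ 5) (l ^ 4) hGl0 (by positivity)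
        (blocks_of_fresh c hf l hl) a h w C Cw hC0 hCw0 hC hw r i ha har n' n hnn (hrange n hn))
    have e1 : ∀ θ, ‖(1 / ((l ^ 8 : ℕ) : ℂ)) * ∑ n ∈ range (l ^ 8), Phi c a h w r i n θ‖ ^ 2 =
        (1 / (l : ℝ) ^ 16) * ‖∑ n ∈ range (l ^ 8), Phi c a h w r i n θ‖ ^ 2 := by
      intro θ
      rw [norm_mul, mul_pow, norm_div, norm_one, Complex.norm_natCast]
      congr 1
      push_cast
      rw [div_pow, one_pow]
      congr 1
      ring
    simp_rw [e1]
    rw [integral_const_mul]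
    have hG : ((Gl l : ℕ) : ℝ) ≤ 3 * l ^ 5 := by
      unfold Gl
      have hk1 : 2 ^ Nat.log 2 l ≤ l := Nat.pow_log_le_self 2 (by omega)
      have : l ^ 4 * (2 * 2 ^ Nat.log 2 l + 1) ≤ 3 * l ^ 5 := by
        calc l ^ 4 * (2 * 2 ^ Nat.log 2 l + 1) ≤ l ^ 4 * (3 * l) := Nat.mul_le_mul_left _ (by omega)
          _ = 3 * l ^ 5 := by ring
      exact_mod_cast this
    have hsq : Real.sqrt (((l ^ 4 : ℕ) : ℝ) * (pr ν * (1 - pr ν))) = l ^ 2 * ρ := by
      rw [Real.sqrt_mul (by positivity)]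
      congr 1
      push_cast
      rw [show (l : ℝ) ^ 4 = (l ^ 2) ^ 2 by ring, Real.sqrt_sq (by positivity)]
    rw [hsq] at hm
    calc (1 / (l : ℝ) ^ 16) * ∫ θ, ‖∑ n ∈ range (l ^ 8), Phi c a h w r i n θ‖ ^ 2 ∂(PP ν)
        ≤ (1 / (l : ℝ) ^ 16) * (((l ^ 8 : ℕ) : ℝ) * (D ^ 2 * (2 * ((2 * Gl l + 2 : ℕ) : ℝ) + 1) +
            ((l ^ 8 : ℕ) : ℝ) * (D ^ 2 / (l ^ 2 * ρ)))) := by
          apply mul_le_mul_of_nonneg_left hm (by positivity)
      _ ≤ (1 / (l : ℝ) ^ 16) * ((l : ℝ) ^ 8 * (D ^ 2 * (2 * (2 * (3 * (l : ℝ) ^ 5) + 2) + 1) +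
            (l : ℝ) ^ 8 * (D ^ 2 / (l ^ 2 * ρ)))) := by
          push_cast
          gcongr
      _ ≤ (1 / (l : ℝ) ^ 16) * ((l : ℝ) ^ 8 * (D ^ 2 * (17 * (l : ℝ) ^ 6) +
            (l : ℝ) ^ 8 * (D ^ 2 / (l ^ 2 * ρ)))) := by
          have h1 : 2 * (2 * (3 * (l : ℝ) ^ 5) + 2) + 1 ≤ 17 * (l : ℝ) ^ 6 := by
            have h2 : (1:ℝ) ≤ (l : ℝ) ^ 5 := one_le_pow₀ hl1
            have h3 : (l : ℝ) ^ 5 ≤ (l : ℝ) ^ 6 := pow_le_pow_right₀ hl1 (by norm_num)
            nlinarith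
          gcongr
      _ = D ^ 2 * (17 + 1 / ρ) * (1 / (l : ℝ) ^ 2) := by
          field_simp

end Pool.Agent.V8H53.Com
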